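import Pool.Agent.Helper22.BI.InterpOf
import Pool.Agent.Helper57.BI.FourierPw

/-! Block BI-12 (helper22), exact form. -/

open MeasureTheory Complex Filter Topology
open scoped ENNReal

namespace Pool.Agent.Helper57.BI

/-- BI-12 -/
theorem trig_interp (H : ℕ) (hH : 0 < H) (u : ℤ → ℝ) (hu : ∀ i, u (i + H) = u i) (c : ℝ)
    (hc : 0 < c) (hc' : ∀ i, |u (i + 1) - u i| ≤ c) :
    ∃ (m : ℕ) (b : ℤ → ℂ), (∀ k, b (-k) = (starRingEnd ℂ) (b k)) ∧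
      ∑ k ∈ Finset.Icc (-(m : ℤ)) m, (2 * Real.pi * k) ^ 2 * ‖b k‖ ^ 2 ≤ (c * H) ^ 2 ∧
      ∀ (i : ℤ) (t : ℝ), (i : ℝ) / H ≤ t → t ≤ (i + 1) / H →
        |(∑ k ∈ Finset.Icc (-(m : ℤ)) m, b k * ee (k * t)).re - u i| ≤ 2 * c :=
  trig_interp_of (fun f f' C h1 h2 h3 h4 h5 => fourier_pw f f' C h1 h2 h3 h4 h5) H hH u hu c hc hc'

end Pool.Agent.Helper57.BI
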