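import Pool.Agent.Helper57.BI.Defs

/-! Block BI-12 (helper22): interpolation of an `H`-periodic sequence by a real trigonometric
polynomial (piecewise linear interpolation and its Fourier series). -/

open MeasureTheory Complex Filter Topology
open scoped ENNReal

namespace Pool.Agent.Helper57.BI

/-- The piecewise linear interpolation of a sequence. -/
noncomputable def pl (u : ℤ → ℝ) (x : ℝ) : ℝ := u ⌊x⌋ + Int.fract x * (u (⌊x⌋ + 1) - u ⌊x⌋)

theorem pl_eq (u : ℤ → ℝ) (n : ℤ) (x : ℝ) (h1 : (n : ℝ) ≤ x) (h2 : x ≤ n + 1) :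
    pl u x = u n + (x - n) * (u (n + 1) - u n) := by
  rcases lt_or_eq_of_le h2 with h | h
  · have hfl : ⌊x⌋ = n := Int.floor_eq_iff.2 ⟨h1, h⟩
    have hfr : Int.fract x = x - n := by rw [Int.fract, hfl]
    rw [pl, hfl, hfr]
  · have hx : x = ((n + 1 : ℤ) : ℝ) := by rw [h]; push_cast; ring
    have hfl : ⌊x⌋ = n + 1 := by rw [hx]; exact Int.floor_intCast _
    have hfr : Int.fract x = 0 := by rw [hx]; exact Int.fract_intCast _
    rw [pl, hfl, hfr, h]
    ring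

theorem continuous_pl (u : ℤ → ℝ) : Continuous (pl u) := by
  have hloc : LocallyFinite (fun n : ℤ => Set.Icc (n : ℝ) (n + 1)) := by
    intro x
    refine ⟨Set.Ioo (x - 1) (x + 1), Ioo_mem_nhds (by linarith) (by linarith), ?_⟩
    refine (Set.finite_Icc (⌊x⌋ - 2) (⌊x⌋ + 2)).subset ?_
    rintro n ⟨y, ⟨hy1, hy2⟩, hy3, hy4⟩
    have h1 := Int.floor_le x
    have h2 := Int.lt_floor_add_one x
    constructor
    · have : (⌊x⌋ : ℝ) - 2 < n + 0 := by linarith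
      have h3 : ((⌊x⌋ - 2 : ℤ) : ℝ) < ((n : ℤ) : ℝ) := by push_cast; linarith
      exact (Int.cast_lt.1 h3).le
    · have h3 : ((n : ℤ) : ℝ) < ((⌊x⌋ + 2 : ℤ) : ℝ) := by push_cast; linarith
      exact (Int.cast_lt.1 h3).le
  refine hloc.continuous ?_ (fun n => isClosed_Icc) ?_
  · refine Set.eq_univ_of_forall fun x => Set.mem_iUnion.2 ⟨⌊x⌋, Int.floor_le x, (Int.lt_floor_add_one x).le⟩
  · intro n
    have : ContinuousOn (fun x : ℝ => u n + (x - n) * (u (n + 1) - u n)) (Set.Icc (n : ℝ) (n + 1)) := by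
      fun_prop
    exact this.congr fun x hx => pl_eq u n x hx.1 hx.2

theorem pl_add (u : ℤ → ℝ) (H : ℕ) (hu : ∀ i, u (i + H) = u i) (x : ℝ) : pl u (x + H) = pl u x := by
  have h1 : ⌊x + (H : ℝ)⌋ = ⌊x⌋ + (H : ℤ) := by
    have := Int.floor_add_natCast x H
    exact this
  have h2 : Int.fract (x + (H : ℝ)) = Int.fract x := Int.fract_add_natCast x H
  rw [pl, pl, h1, h2, hu]
  have : (⌊x⌋ + (H : ℤ) + 1) = (⌊x⌋ + 1) + (H : ℤ) := by ring
  rw [this, hu]

theorem pl_deriv (u : ℤ → ℝ) (x : ℝ) :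
    HasDerivWithinAt (pl u) (u (⌊x⌋ + 1) - u ⌊x⌋) (Set.Ioi x) x := by
  have h1 : HasDerivWithinAt (fun y : ℝ => u ⌊x⌋ + (y - ⌊x⌋) * (u (⌊x⌋ + 1) - u ⌊x⌋))
      (u (⌊x⌋ + 1) - u ⌊x⌋) (Set.Ioi x) x := by
    have h := (((hasDerivAt_id x).sub_const (⌊x⌋ : ℝ)).mul_const (u (⌊x⌋ + 1) - u ⌊x⌋)).const_add (u ⌊x⌋)
    simpa using h.hasDerivWithinAt
  refine h1.congr_of_eventuallyEq ?_ (pl_eq u ⌊x⌋ x (Int.floor_le x) (Int.lt_floor_add_one x).le)
  have h2 : Set.Ioo x (⌊x⌋ + 1) ∈ 𝓝[>] x := Ioo_mem_nhdsGT (Int.lt_floor_add_one x)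
  filter_upwards [h2] with y hy
  exact pl_eq u ⌊x⌋ y ((Int.floor_le x).trans hy.1.le) hy.2.le

/-- BI-12 from BI-2 (`fourier_pw`, given as the hypothesis `hpw`) -/
theorem trig_interp_of
    (hpw : ∀ (f f' : ℝ → ℂ) (C : ℝ), Continuous f → (∀ x, f (x + 1) = f x) →
      (∀ x ∈ Set.Ioo (0 : ℝ) 1, HasDerivWithinAt f (f' x) (Set.Ioi x) x) →
      Measurable f' → (∀ x, ‖f' x‖ ≤ C) →
      ∃ c : ℤ → ℂ, Summable c ∧ (∀ t : ℝ, f t = ∑' k : ℤ, c k * ee (k * t)) ∧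
        (∀ k : ℤ, c k = ∫ x in (0 : ℝ)..1, f x * ee (-(k * x))) ∧
        HasSum (fun k : ℤ => (2 * Real.pi * k) ^ 2 * ‖c k‖ ^ 2) (∫ x in (0 : ℝ)..1, ‖f' x‖ ^ 2))
    (H : ℕ) (hH : 0 < H) (u : ℤ → ℝ) (hu : ∀ i, u (i + H) = u i) (c : ℝ)
    (hc : 0 < c) (hc' : ∀ i, |u (i + 1) - u i| ≤ c) :
    ∃ (m : ℕ) (b : ℤ → ℂ), (∀ k, b (-k) = (starRingEnd ℂ) (b k)) ∧
      ∑ k ∈ Finset.Icc (-(m : ℤ)) m, (2 * Real.pi * k) ^ 2 * ‖b k‖ ^ 2 ≤ (c * H) ^ 2 ∧
      ∀ (i : ℤ) (t : ℝ), (i : ℝ) / H ≤ t → t ≤ (i + 1) / H →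
        |(∑ k ∈ Finset.Icc (-(m : ℤ)) m, b k * ee (k * t)).re - u i| ≤ 2 * c := by
  have hH' : (0 : ℝ) < H := by exact_mod_cast hH
  set f : ℝ → ℂ := fun t => ((pl u (H * t) : ℝ) : ℂ) with hf
  set f' : ℝ → ℂ := fun t => (((u (⌊(H : ℝ) * t⌋ + 1) - u ⌊(H : ℝ) * t⌋) * H : ℝ) : ℂ) with hf'
  have hcont : Continuous f := by
    have := continuous_pl u
    fun_prop
  have hper : ∀ x, f (x + 1) = f x := by
    intro x
    simp only [hf]
    rw [mul_add, mul_one, pl_add u H hu]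
  have hder : ∀ x ∈ Set.Ioo (0 : ℝ) 1, HasDerivWithinAt f (f' x) (Set.Ioi x) x := by
    intro x _
    have h1 := pl_deriv u ((H : ℝ) * x)
    have h2 : HasDerivWithinAt (fun t : ℝ => (H : ℝ) * t) (H : ℝ) (Set.Ioi x) x := by
      simpa using ((hasDerivAt_id x).const_mul (H : ℝ)).hasDerivWithinAt
    have h3 := h1.comp x h2 (fun y hy => by
      simp only [Set.mem_Ioi] at hy ⊢
      exact mul_lt_mul_of_pos_left hy hH')
    exact h3.ofReal_comp
  have hmeas : Measurable f' := by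
    have h1 : Measurable (fun n : ℤ => (((u (n + 1) - u n) * H : ℝ) : ℂ)) := Measurable.of_discrete
    have h2 : Measurable (fun t : ℝ => ⌊(H : ℝ) * t⌋) :=
      Int.measurable_floor.comp (measurable_const.mul measurable_id)
    exact h1.comp h2
  have hbd : ∀ x, ‖f' x‖ ≤ c * H := by
    intro x
    simp only [hf', norm_real, Real.norm_eq_abs, abs_mul]
    rw [abs_of_pos hH']
    exact mul_le_mul_of_nonneg_right (hc' _) hH'.le
  obtain ⟨b, hb1, hb2, hb3, hb4⟩ := hpw f f' (c * H) hcont hper hder hmeas hbd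
  have hb1' : Summable fun k => ‖b k‖ := hb1.norm
  have hunif := tendstoUniformly_tsum (f := fun (k : ℤ) (t : ℝ) => b k * ee (k * t)) hb1'
    (fun k t => by rw [norm_mul, norm_ee, mul_one])
  have hIcc : Tendsto (fun m : ℕ => Finset.Icc (-(m : ℤ)) m) atTop atTop := by
    refine tendsto_atTop_finset_of_monotone ?_ ?_
    · intro a b hab
      refine Finset.Icc_subset_Icc ?_ ?_
      · have : (a : ℤ) ≤ b := by exact_mod_cast hab
        linarith
      · exact_mod_cast hab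
    · intro k
      refine ⟨k.natAbs, ?_⟩
      rw [Finset.mem_Icc]
      constructor <;> omega
  have hev := hIcc.eventually ((Metric.tendstoUniformly_iff.1 hunif) c hc)
  obtain ⟨m, hm⟩ := hev.exists
  refine ⟨m, b, ?_, ?_, ?_⟩
  · intro k
    rw [hb3, hb3, ← intervalIntegral.intervalIntegral_conj]
    refine intervalIntegral.integral_congr fun x _ => ?_
    simp only [hf, map_mul, conj_ofReal]
    rw [← ee_neg]
    congr 2
    push_cast
    ring
  · have h1 : ∑ k ∈ Finset.Icc (-(m : ℤ)) m, (2 * Real.pi * k) ^ 2 * ‖b k‖ ^ 2 ≤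
        ∫ x in (0 : ℝ)..1, ‖f' x‖ ^ 2 :=
      sum_le_hasSum _ (fun k _ => by positivity) hb4
    refine h1.trans ?_
    have h2 : ‖∫ x in (0 : ℝ)..1, ‖f' x‖ ^ 2‖ ≤ (c * H) ^ 2 * |1 - 0| := by
      refine intervalIntegral.norm_integral_le_of_norm_le_const fun x _ => ?_
      rw [norm_pow, norm_norm]
      exact pow_le_pow_left₀ (norm_nonneg _) (hbd x) 2
    have h3 := le_of_abs_le h2
    simpa using h3
  · intro i t h1 h2
    have h1' : (i : ℝ) ≤ H * t := by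
      rw [div_le_iff₀ hH'] at h1
      linarith
    have h2' : (H : ℝ) * t ≤ i + 1 := by
      rw [le_div_iff₀ hH'] at h2
      linarith
    have h3 := pl_eq u i (H * t) h1' h2'
    have h4 := hm t
    rw [dist_eq_norm] at h4
    have h5 : (∑' k : ℤ, b k * ee (k * t)) = f t := (hb2 t).symm
    rw [h5] at h4
    have h6 : |pl u (H * t) - (∑ k ∈ Finset.Icc (-(m : ℤ)) m, b k * ee (k * t)).re| ≤ c := by
      have h7 := Complex.abs_re_le_norm (f t - ∑ k ∈ Finset.Icc (-(m : ℤ)) m, b k * ee (k * t))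
      rw [Complex.sub_re] at h7
      have h8 : (f t).re = pl u (H * t) := by simp [hf]
      rw [h8] at h7
      exact h7.trans h4.le
    have h9 : |pl u (H * t) - u i| ≤ c := by
      rw [h3]
      have : u i + ((H : ℝ) * t - i) * (u (i + 1) - u i) - u i = ((H : ℝ) * t - i) * (u (i + 1) - u i) := by
        ring
      rw [this, abs_mul, abs_of_nonneg (by linarith)]
      calc ((H : ℝ) * t - i) * |u (i + 1) - u i| ≤ 1 * c :=
            mul_le_mul (by linarith) (hc' i) (abs_nonneg _) (by norm_num)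
        _ = c := one_mul c
    rw [abs_le] at h6 h9 ⊢
    constructor <;> linarith [h6.1, h6.2, h9.1, h9.2]

end Pool.Agent.Helper57.BI
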